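import Pool.Agent.H28.GN.T1
import Pool.Agent.H28.GN.T3
import Pool.Agent.H67.AG.T3

/-!
Theorem G: row GXY, the data of the ergodic part from a component with infinitely many good
scales.
-/

set_option autoImplicit false

open MeasureTheory ProbabilityTheory Filter Topology Finset
open scoped Nat ENNReal

namespace Pool.Agent.H74.THG

open Pool.Agent.H24.T2 (Pset)
open Pool.Agent.H67.AG (avgP ul Inv Rt Av)
open Pool.Agent.H28.LF (Wd La Cd dm ds lt ng SS ptS LX Xi LY Yi shX shY lX lY btY flY xiY SysX SysY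
  CompY LwY ExY Wa DcO sY GoodC Um wX Ix)
open Pool.Agent.H28.GN

theorem avgP_abs (m : ℕ) (f : ℕ → ℝ) (hf : ∀ p, |f p| ≤ 1) : |avgP 2 m f| ≤ 1 := by
  unfold avgP
  rw [abs_div, Nat.abs_cast]
  rcases Nat.eq_zero_or_pos (Pset 2 m).card with h | h
  · rw [h]
    simp
  · rw [div_le_one (by exact_mod_cast h)]
    exact (Finset.abs_sum_le_sum_abs _ _).trans
      ((Finset.sum_le_sum fun p _ => hf p).trans (by simp))

theorem exists_U (G : ℕ → Set ℕ) (hne : ∀ i, (G i).Nonempty) (hmono : ∀ i j, i ≤ j → G j ⊆ G i)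
    (hge : ∀ i m, m ∈ G i → i ≤ m) :
    ∃ U : Ultrafilter ℕ, (U : Filter ℕ) ≤ atTop ∧ ∀ i, G i ∈ (U : Filter ℕ) := by
  have hnb : (⨅ i, 𝓟 (G i)).NeBot := by
    refine Filter.iInf_neBot_of_directed ?_ fun i => Filter.principal_neBot_iff.2 (hne i)
    intro i j
    exact ⟨max i j, principal_mono.2 (hmono _ _ (le_max_left _ _)),
      principal_mono.2 (hmono _ _ (le_max_right _ _))⟩
  refine ⟨Ultrafilter.of (⨅ i, 𝓟 (G i)), ?_, ?_⟩
  · refine (Ultrafilter.of_le _).trans ?_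
    exact le_iInf fun a => (iInf_le _ a).trans (principal_mono.2 fun m hm => hge a m hm)
  · intro i
    exact Ultrafilter.of_le _ (Filter.mem_iInf_of_mem i (Filter.mem_principal_self _))

theorem avgP_sum {Pt : Type} [Fintype Pt] (m : ℕ) (g : Pt → ℕ → ℝ) (N : ℝ) :
    avgP 2 m (fun p => (∑ t, g t p) / N) = (∑ t, avgP 2 m (g t)) / N := by
  unfold avgP
  rw [← Finset.sum_div, ← Finset.sum_div, Finset.sum_comm]
  ring

/-- limits of finite sums -/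
theorem ul_sum (hU : Pool.Agent.H67.AG.T_UL) (U : Ultrafilter ℕ) {Pt : Type} (S : Finset Pt)
    (f : Pt → ℕ → ℝ) (hf : ∀ t n, |f t n| ≤ 1) :
    ul U (fun m => ∑ t ∈ S, f t m) = ∑ t ∈ S, ul U (f t) := by
  classical
  obtain ⟨-, -, hadd, -, hconst⟩ := hU U
  induction S using Finset.induction_on with
  | empty =>
    simp only [Finset.sum_empty]
    exact hconst 0
  | insert a S ha ih =>
    simp only [Finset.sum_insert ha]
    rw [← ih]
    refine hadd _ _ ⟨1, hf a⟩ ⟨S.card, fun n => ?_⟩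
    exact (Finset.abs_sum_le_sum_abs _ _).trans
      ((Finset.sum_le_sum fun t _ => hf t n).trans (by simp))

theorem ul_avg (hU : Pool.Agent.H67.AG.T_UL) (U : Ultrafilter ℕ) {Pt : Type} [Fintype Pt]
    (g : Pt → ℕ → ℝ) (hg : ∀ t p, |g t p| ≤ 1) :
    (∑ t, ul U (fun m => avgP 2 m (g t))) / Fintype.card Pt =
      ul U (fun m => avgP 2 m (fun p => (∑ t, g t p) / Fintype.card Pt)) := by
  have hf : ∀ t n, |avgP 2 n (g t)| ≤ 1 := fun t n => avgP_abs n _ (hg t)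
  rw [← ul_sum hU U univ (fun t m => avgP 2 m (g t)) hf]
  obtain ⟨-, -, -, hmul, -⟩ := hU U
  have h1 := hmul (fun m => ∑ t, avgP 2 m (g t)) (1 / (Fintype.card Pt : ℝ))
    ⟨(univ : Finset Pt).card, fun n => (Finset.abs_sum_le_sum_abs _ _).trans
      ((Finset.sum_le_sum fun t _ => hf t n).trans (by simp))⟩
  rw [div_eq_mul_one_div, mul_comm, ← h1]
  congr 1
  funext m
  rw [avgP_sum]
  ring

theorem btY_meas : Measurable btY := measurable_fst.comp (measurable_pi_apply (0 : ℤ))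

theorem aG_meas (ix : Bool × Bool → Fin 4) : Measurable (aG ix) :=
  (measurable_of_countable (fun b : Bool × Bool => ix (ng b))).comp btY_meas

theorem sG_val {J c b H : ℕ} (u : Bool × Bool → ℂ) (α : ℝ) (F : Set Xi) (ν : Measure Yi)
    (t : PtG J c b H) (p : ℕ) : sG u α F ν t p = 0 ∨ sG u α F ν t p = 1 := by
  unfold sG
  split_ifs
  · exact Or.inr rfl
  · exact Or.inl rfl

theorem card_boxes (J H : ℕ) : Fintype.card (Fin J → Bool → Fin H) = H ^ (2 * J) := by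
  rw [Fintype.card_fun, Fintype.card_fun, Fintype.card_bool, Fintype.card_fin, Fintype.card_fin,
    ← pow_mul]

theorem card_act (hA : T_ACT) (J c b s : ℕ) (hc : 0 < c)
    (h : 4 ^ J * (2 * (b : ℝ) / (2 : ℝ) ^ s) ≤ 1 / 2) :
    ((2 : ℝ) ^ s) ^ (2 * J) ≤ 2 * Fintype.card (PtG J c b (2 ^ s)) := by
  have h1 := hA J c b (2 ^ s) hc (by positivity)
  push_cast at h1
  have h2 : Fintype.card (PtG J c b (2 ^ s)) +
      (univ.filter fun t : Fin J → Bool → Fin (2 ^ s) => ¬ Act J c b (2 ^ s) t).card =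
      (2 ^ s) ^ (2 * J) := by
    rw [← card_boxes, Fintype.card_subtype, ← Finset.card_univ]
    exact Finset.card_filter_add_card_filter_not _
  have h3 : (Fintype.card (PtG J c b (2 ^ s)) : ℝ) +
      ((univ.filter fun t : Fin J → Bool → Fin (2 ^ s) => ¬ Act J c b (2 ^ s) t).card : ℝ) =
      ((2 : ℝ) ^ s) ^ (2 * J) := by exact_mod_cast h2
  have h4 : 4 ^ J * (2 * (b : ℝ) / (2 : ℝ) ^ s) * ((2 : ℝ) ^ s) ^ (2 * J) ≤
      1 / 2 * ((2 : ℝ) ^ s) ^ (2 * J) := by gcongr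
  linarith

theorem exists_r (z η : ℝ) (hz : 0 < z) (hη : 0 < η) :
    ∃ r : ℕ, 160 / (z ^ 2 * 4 ^ r) + 10 / 2 ^ r < η := by
  obtain ⟨r, hr⟩ := pow_unbounded_of_one_lt ((160 / z ^ 2 + 10) / η) (by norm_num : (1 : ℝ) < 2)
  refine ⟨r, ?_⟩
  rw [div_lt_iff₀ hη] at hr
  have h2 : (0 : ℝ) < 2 ^ r := by positivity
  have h24 : (2 : ℝ) ^ r ≤ 4 ^ r := by gcongr; norm_num
  have h3 : 160 / (z ^ 2 * 4 ^ r) ≤ 160 / z ^ 2 / 2 ^ r := by
    rw [div_div]
    gcongr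
  have h4 : 160 / z ^ 2 / 2 ^ r + 10 / 2 ^ r = (160 / z ^ 2 + 10) / 2 ^ r := by ring
  have h5 : (160 / z ^ 2 + 10) / 2 ^ r < η := by
    rw [div_lt_iff₀ h2]
    linarith
  linarith

theorem exists_s (J b k : ℕ) (γ ε : ℝ) (hγ : 0 < γ) (hε : 0 < ε) :
    ∃ s : ℕ, k ≤ s ∧ 128 * 2 ^ J * (b : ℝ) ≤ γ * (2 : ℝ) ^ s ∧
      4 ^ J * (2 * (b : ℝ) / (2 : ℝ) ^ s) ≤ ε / 4 := by
  obtain ⟨s₀, hs₀⟩ := pow_unbounded_of_one_lt
    (128 * 2 ^ J * (b : ℝ) / γ + 4 ^ J * (2 * (b : ℝ)) * 4 / ε) (by norm_num : (1 : ℝ) < 2)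
  refine ⟨max k s₀, le_max_left _ _, ?_, ?_⟩
  all_goals
    have h1 : (2 : ℝ) ^ s₀ ≤ 2 ^ (max k s₀) := by
      gcongr
      · norm_num
      · exact le_max_right _ _
    have ha : 0 ≤ 128 * 2 ^ J * (b : ℝ) / γ := by positivity
    have hb : 0 ≤ 4 ^ J * (2 * (b : ℝ)) * 4 / ε := by positivity
  · have h2 : 128 * 2 ^ J * (b : ℝ) / γ ≤ 2 ^ (max k s₀) := by linarith
    rw [div_le_iff₀ hγ] at h2
    linarith
  · have h2 : 4 ^ J * (2 * (b : ℝ)) * 4 / ε ≤ 2 ^ (max k s₀) := by linarith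
    rw [div_le_iff₀ hε] at h2
    have h3 : 4 ^ J * (2 * (b : ℝ) / (2 : ℝ) ^ (max k s₀)) =
        4 ^ J * (2 * (b : ℝ)) / (2 : ℝ) ^ (max k s₀) := by ring
    rw [h3, div_le_iff₀ (by positivity)]
    linarith

/-- GXY -/
theorem pf_GXY (hP : T_PGP) (hL : T_LPP) (hT : T_TPP) (hS : T_SPR) (hI : T_POI) (hC : T_CIM)
    (hG : T_CDG) (hA : T_ACT) (hR : T_RLG) (hD : T_DNG) (hN : T_NPG)
    (hU : Pool.Agent.H67.AG.T_UL) : T_GXY := by
  intro u ix c J ε ζ γ₀ F k B ν hu hix hc hJ hε hε1 hζ hζ2 hsep hγ₀ hγ₀1 hν hF hB hfr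
  classical
  have hνp : IsProbabilityMeasure ν := hν.prob
  -- the ultrafilter
  obtain ⟨U, hUt, hUG⟩ := exists_U (fun i₀ => {m' | ∃ i, i₀ ≤ i ∧ GoodC F B γ₀ ν i m'})
    (by
      intro i₀
      obtain ⟨i, hi, m', hm'⟩ := (Filter.frequently_atTop.1 hfr) i₀
      exact ⟨m', i, hi, hm'⟩)
    (by
      rintro i j hij m' ⟨i', hi', hm'⟩
      exact ⟨i', hij.trans hi', hm'⟩)
    (by
      rintro i m' ⟨i', hi', hm'⟩
      exact hi'.trans hm'.le)
  obtain ⟨-, hUle, -, -, hUc⟩ := hU U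
  -- the constants
  obtain ⟨γ, hγdef⟩ : ∃ γ, γ = γ₀ / 2 * (ε / 4) := ⟨_, rfl⟩
  have hγ0 : 0 < γ := by rw [hγdef]; positivity
  have hγ1 : γ ≤ 1 := by rw [hγdef]; nlinarith
  have hcJ : (1 : ℝ) ≤ c * J := by
    have : 1 ≤ c * J := Nat.mul_pos hc hJ
    exact_mod_cast this
  obtain ⟨κ, hκdef⟩ : ∃ κ, κ = γ ^ 2 / (65536 * c * J) := ⟨_, rfl⟩
  have hκ0 : 0 < κ := by
    rw [hκdef]
    have : (0 : ℝ) < 65536 * c * J := by nlinarith
    positivity
  have hκ1 : κ ≤ γ ^ 2 / 16384 := by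
    rw [hκdef]
    apply div_le_div_of_nonneg_left (by positivity) (by norm_num)
    nlinarith
  obtain ⟨e, hedef⟩ : ∃ e, e = Real.sqrt (ε / 2) / 2 := ⟨_, rfl⟩
  have hsq : 0 < Real.sqrt (ε / 2) := Real.sqrt_pos.2 (by positivity)
  have he0 : 0 < e := by rw [hedef]; positivity
  obtain ⟨z, hzdef⟩ : ∃ z, z = e * ζ / 6 := ⟨_, rfl⟩
  have hz0 : 0 < z := by rw [hzdef]; positivity
  have h5z : 5 * z < e * ζ := by
    rw [hzdef]
    have : 0 < e * ζ := by positivity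
    linarith
  have hzα : z ≤ Real.sqrt (ε / 2) := by
    rw [hzdef, hedef]
    nlinarith
  obtain ⟨η, hηdef⟩ : ∃ η, η = γ ^ 2 * κ / 61036 := ⟨_, rfl⟩
  have hη0 : 0 < η := by rw [hηdef]; positivity
  obtain ⟨r, hr⟩ := exists_r z (η / 2) hz0 (by positivity)
  obtain ⟨s, hs1, hs2, hs3⟩ := exists_s J (3 * 2 ^ k r + 2 ^ k r) (k r) γ ε hγ0 hε
  have hs3' : 4 ^ J * (2 * ((3 * 2 ^ k r + 2 ^ k r : ℕ) : ℝ) / (2 : ℝ) ^ s) ≤ 1 / 2 := by
    linarith
  have hcard := card_act hA J c (3 * 2 ^ k r + 2 ^ k r) s hc hs3'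
  have hne : Nonempty (PtG J c (3 * 2 ^ k r + 2 ^ k r) (2 ^ s)) := by
    rw [← Fintype.card_pos_iff]
    have h1 : (0 : ℝ) < ((2 : ℝ) ^ s) ^ (2 * J) := by positivity
    have h2 : (0 : ℝ) < Fintype.card (PtG J c (3 * 2 ^ k r + 2 ^ k r) (2 ^ s)) := by linarith
    exact_mod_cast h2
  have hb0 : 0 < 3 * 2 ^ k r + 2 ^ k r := by positivity
  have hsv : ∀ (t : PtG J c (3 * 2 ^ k r + 2 ^ k r) (2 ^ s)) (p : ℕ),
      sG u (ε / 2) F ν t p = 0 ∨ sG u (ε / 2) F ν t p = 1 := fun t p => sG_val u _ F ν t p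
  have hsabs : ∀ (t : PtG J c (3 * 2 ^ k r + 2 ^ k r) (2 ^ s)) (p : ℕ),
      |sG u (ε / 2) F ν t p| ≤ 1 := by
    intro t p
    rcases hsv t p with h | h <;> rw [h] <;> simp
  have hinj : ∀ t : PtG J c (3 * 2 ^ k r + 2 ^ k r) (2 ^ s), Function.Injective (po t) :=
    fun t => hI J c (3 * 2 ^ k r + 2 ^ k r) (2 ^ s) t
  have hcode : CodeG (Im J (2 ^ k r) (3 * 2 ^ k r)) (BadG J u ix e z (2 ^ k r) (3 * 2 ^ k r)) :=
    hG J u ix e z ζ (2 ^ k r) (3 * 2 ^ k r) hu hix he0 hζ hz0.le h5z hsep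
  have hcI : Fintype.card (Pl J (3 * 2 ^ k r + 2 ^ k r)) ≤
      2 * (Im J (2 ^ k r) (3 * 2 ^ k r)).card := (hC J (2 ^ k r)).1.le
  have hspr : Spr U (fun t : PtG J c (3 * 2 ^ k r + 2 ^ k r) (2 ^ s) => po t)
      (Im J (2 ^ k r) (3 * 2 ^ k r)) γ κ := by
    refine hS J c (3 * 2 ^ k r + 2 ^ k r) (2 ^ s) U γ κ _ hUt hJ hc hb0 hγ0 hγ1 hκ0
      hκdef.le ?_ ?_
    · have h1 : (((2 ^ s : ℕ) : ℕ) : ℝ) = (2 : ℝ) ^ s := by push_cast; rfl
      rw [h1]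
      exact hs2
    · have h1 : (((2 ^ s : ℕ) : ℕ) : ℝ) = (2 : ℝ) ^ s := by push_cast; rfl
      rw [h1]
      exact hcard
  -- density of the flags
  have hdens : γ ≤ dsG U (fun (t : PtG J c (3 * 2 ^ k r + 2 ^ k r) (2 ^ s)) p =>
      sG u (ε / 2) F ν t p) := by
    unfold dsG ds
    have e1 := ul_avg hU U (fun (t : PtG J c (3 * 2 ^ k r + 2 ^ k r) (2 ^ s)) p =>
      sG u (ε / 2) F ν t p) hsabs
    rw [e1, ← hUc γ]
    refine hUle _ _ ⟨|γ|, fun _ => le_rfl⟩ ⟨1, fun m' => avgP_abs m' _ fun p => ?_⟩ ?_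
    · rw [abs_div, Nat.abs_cast]
      apply div_le_one_of_le₀ _ (Nat.cast_nonneg _)
      refine (Finset.abs_sum_le_sum_abs _ _).trans
        ((Finset.sum_le_sum fun t _ => hsabs t p).trans ?_)
      simp
    · filter_upwards [hUG 0] with m' hm'
      obtain ⟨i, _, hi⟩ := hm'
      rw [hγdef]
      exact hD u c J (3 * 2 ^ k r + 2 ^ k r) s i m' ε γ₀ F B ν hu hc hν hF hε hs3 hi
  -- the bad words
  have hrel : LaG U (fun (t : PtG J c (3 * 2 ^ k r + 2 ^ k r) (2 ^ s)) p =>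
      sG u (ε / 2) F ν t p) ν shY (aG ix)
      (fun (t : PtG J c (3 * 2 ^ k r + 2 ^ k r) (2 ^ s)) _ =>
        Lft (po t) (BadG J u ix e z (2 ^ k r) (3 * 2 ^ k r))) Set.univ ≤ η := by
    have hg : ∀ (t : PtG J c (3 * 2 ^ k r + 2 ^ k r) (2 ^ s)) (p : ℕ),
        |sG u (ε / 2) F ν t p * ν.real (Set.univ ∩
          {ω | Wd shY (aG ix) (c * J * 2 ^ s + (3 * 2 ^ k r + 2 ^ k r)) p ω ∈
            Lft (po t) (BadG J u ix e z (2 ^ k r) (3 * 2 ^ k r))})| ≤ 1 := by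
      intro t p
      rw [abs_mul]
      refine mul_le_one₀ (hsabs t p) (abs_nonneg _) ?_
      rw [abs_of_nonneg measureReal_nonneg]
      exact measureReal_le_one
    unfold LaG La
    rw [ul_avg hU U _ hg]
    obtain ⟨i₀, hi₀⟩ : ∃ i₀ : ℕ, 24 / η ≤ i₀ := exists_nat_ge _
    rw [← hUc η]
    refine hUle _ _ ⟨1, fun m' => avgP_abs m' _ fun p => ?_⟩ ⟨|η|, fun _ => le_rfl⟩ ?_
    · rw [abs_div, Nat.abs_cast]
      apply div_le_one_of_le₀ _ (Nat.cast_nonneg _)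
      refine (Finset.abs_sum_le_sum_abs _ _).trans
        ((Finset.sum_le_sum fun t _ => hg t p).trans ?_)
      simp
    · filter_upwards [hUG (max i₀ (c * J * 2 ^ s + (3 * 2 ^ k r + 2 ^ k r)))] with m' hm'
      obtain ⟨i, hi, hgd⟩ := hm'
      have h2 := hR u ix c J r s i m' (ε / 2) z γ₀ F k B ν hu hix hν hF.1 hF.2.1 hB
        (by positivity) hz0 hzα hs1 hcard ((le_max_right _ _).trans hi) hgd
      rw [← hedef] at h2
      simp only [Set.univ_inter]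
      refine h2.trans ?_
      have h3 : 12 / ((i : ℝ) + 1) ≤ η / 2 := by
        have h4 : (i₀ : ℝ) ≤ i := by exact_mod_cast (le_max_left _ _).trans hi
        have h5 : 24 / η ≤ (i : ℝ) + 1 := by linarith
        rw [div_le_iff₀ hη0] at h5
        rw [div_le_iff₀ (by positivity)]
        linarith
      linarith
  exact ⟨{ X := Yi, μ := ν, pμ := hνp, T := shY, erg := hν.erg, q := 4,
            a := aG ix, am := aG_meas ix, np := hN u ix ν hu hix hν, U := U,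
            hU := hUt, γ := γ, γ0 := hγ0, γ1 := hγ1, κ := κ, κ0 := hκ0, κ1 := hκ1,
            m := Fintype.card (Pl J (3 * 2 ^ k r + 2 ^ k r)),
            m0 := by rw [(hC J (2 ^ k r)).2]; positivity,
            R := c * J * 2 ^ s + (3 * 2 ^ k r + 2 ^ k r),
            Pt := PtG J c (3 * 2 ^ k r + 2 ^ k r) (2 ^ s),
            s := fun t p => sG u (ε / 2) F ν t p, sv := hsv,
            Bad := fun t _ => Lft (po t) (BadG J u ix e z (2 ^ k r) (3 * 2 ^ k r)),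
            lip := hL U 4 _ _ _ _ (fun t => po t)
              (fun _ _ => BadG J u ix e z (2 ^ k r) (3 * 2 ^ k r)) hUt hsv,
            pg := hP U 4 _ _ _ _ (fun t => po t) (Im J (2 ^ k r) (3 * 2 ^ k r))
              (fun _ _ => BadG J u ix e z (2 ^ k r) (3 * 2 ^ k r)) γ κ hUt hsv hinj
              (fun _ _ => hcode) hcI hγ0 hdens hκ0 hspr,
            tp := hT Yi ν shY 4 _ (aG ix) U _ _ _ (fun t => po t)
              (Im J (2 ^ k r) (3 * 2 ^ k r))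
              (fun _ _ => BadG J u ix e z (2 ^ k r) (3 * 2 ^ k r)) γ κ hν.erg (aG_meas ix) hUt
              hsv hinj (fun _ _ => hcode) hcI hγ0 hdens hκ0 hspr,
            rel := by rw [← hηdef]; exact hrel }⟩

end Pool.Agent.H74.THG
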